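import Mathlib

set_option autoImplicit false

/-!
# Palindromes of the period-doubling word as operations on binary expansions
-/

namespace Pool.Agent.H743Z.Ppl

/-- The block from position `i + 1` to position `j` of `U` is a palindrome. -/
def Pal (U : ℕ → Bool) (i j : ℕ) : Prop :=
  ∀ x, i < x → x ≤ j → U x = U (i + j + 1 - x)

/-- `U 1, U 2, …` is the period-doubling word. -/
def IsPD (U : ℕ → Bool) : Prop :=
  (∀ y, U (2 * y + 1) = false) ∧ ∀ y, 0 < y → U (2 * y) = !(U y)

/-- Move of the first kind. -/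
def BA (j i P : ℕ) : Prop :=
  j.testBit P = true ∧ ∀ x, i.testBit x = (j.testBit x ^^ decide (x ≤ P))

/-- Move of the second kind. -/
def BB (j i P Q : ℕ) : Prop :=
  Q + 2 ≤ P ∧ (P - Q) % 2 = 0 ∧ j.testBit P = true ∧
    (∀ x, Q < x → x < P → j.testBit x = false) ∧
    ∀ x, i.testBit x = (j.testBit x ^^ decide (x ≤ P ∧ x ≠ Q))

variable {U : ℕ → Bool}

lemma U_odd (h : IsPD U) {x : ℕ} (hx : x % 2 = 1) : U x = false := by
  have := h.1 (x / 2)
  rwa [show 2 * (x / 2) + 1 = x by omega] at this

lemma U_even (h : IsPD U) {x : ℕ} (hx : x % 2 = 0) (h0 : 0 < x) : U x = !(U (x / 2)) := by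
  have := h.2 (x / 2) (by omega)
  rwa [show 2 * (x / 2) = x by omega] at this

lemma low (h : IsPD U) : ∀ k y : ℕ, y.testBit k = true → (∀ x < k, y.testBit x = false) →
    0 < y ∧ (U y = decide (k % 2 = 1)) ∧
      ∀ x, (y - 1).testBit x = (y.testBit x ^^ decide (x ≤ k)) := by
  intro k
  induction k with
  | zero =>
    intro y h1 _
    have hy : y % 2 = 1 := by simpa [Nat.testBit_zero] using h1
    refine ⟨by omega, by simp [U_odd h hy], ?_⟩
    intro x
    cases x with
    | zero =>
      have : (y - 1) % 2 = 0 := by omega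
      simp [Nat.testBit_zero, this, hy]
    | succ x =>
      rw [Nat.testBit_add_one, Nat.testBit_add_one, show (y - 1) / 2 = y / 2 by omega]
      simp
  | succ k ih =>
    intro y h1 h2
    have hy : y % 2 = 0 := by
      have := h2 0 (by omega)
      simp [Nat.testBit_zero] at this
      omega
    obtain ⟨a1, a2, a3⟩ := ih (y / 2) (by rwa [Nat.testBit_add_one] at h1)
      (fun x hx => by rw [← Nat.testBit_add_one]; exact h2 _ (by omega))
    refine ⟨by omega, ?_, ?_⟩
    · rw [U_even h hy (by omega), a2]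
      rcases Nat.mod_two_eq_zero_or_one k with hk | hk
      · have : (k + 1) % 2 = 1 := by omega
        simp [hk, this]
      · have : (k + 1) % 2 = 0 := by omega
        simp [hk, this]
    · intro x
      cases x with
      | zero =>
        have : (y - 1) % 2 = 1 := by omega
        simp [Nat.testBit_zero, this, hy]
      | succ x =>
        rw [Nat.testBit_add_one, Nat.testBit_add_one, show (y - 1) / 2 = y / 2 - 1 by omega, a3]
        simp

lemma exists_low {y : ℕ} (hy : 0 < y) :
    ∃ k, y.testBit k = true ∧ ∀ x < k, y.testBit x = false := by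
  classical
  have h := Nat.exists_testBit_of_ne_zero (x := y) (by omega)
  refine ⟨Nat.find h, Nat.find_spec h, fun x hx => ?_⟩
  simpa using Nat.find_min h hx

lemma pal_lift (h : IsPD U) {i j : ℕ} (hpar : i % 2 + j % 2 = 1) (hp : Pal U (i / 2) (j / 2)) :
    Pal U i j := by
  intro x h1 h2
  rcases Nat.mod_two_eq_zero_or_one x with hx | hx
  · rw [U_even h hx (by omega), U_even h (x := i + j + 1 - x) (by omega) (by omega),
      hp (x / 2) (by omega) (by omega)]
    congr 2
    omega
  · rw [U_odd h hx, U_odd h (by omega)]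

lemma pal_half (h : IsPD U) {i j : ℕ} (hpar : i % 2 + j % 2 = 1) (hp : Pal U i j) :
    Pal U (i / 2) (j / 2) := by
  intro y h1 h2
  have := hp (2 * y) (by omega) (by omega)
  rw [h.2 y (by omega), show i + j + 1 - 2 * y = 2 * (i / 2 + j / 2 + 1 - y) by omega,
    h.2 _ (by omega)] at this
  simpa using this

lemma bit0_par {i j : ℕ} (h : i.testBit 0 = (j.testBit 0 ^^ true)) : i % 2 + j % 2 = 1 := by
  rcases Nat.mod_two_eq_zero_or_one i with hi | hi <;>
    rcases Nat.mod_two_eq_zero_or_one j with hj | hj <;>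
    simp [Nat.testBit_zero, hi, hj] at h ⊢

lemma pal_of_BA (h : IsPD U) : ∀ P j i : ℕ, BA j i P → i < j ∧ Pal U i j := by
  intro P
  induction P with
  | zero =>
    intro j i ⟨h1, h2⟩
    have hj : j % 2 = 1 := by simpa [Nat.testBit_zero] using h1
    have hp := bit0_par (i := i) (j := j) (by simpa using h2 0)
    have he : i / 2 = j / 2 := by
      apply Nat.eq_of_testBit_eq
      intro x
      rw [← Nat.testBit_add_one, ← Nat.testBit_add_one, h2]
      simp
    refine ⟨by omega, fun x a b => ?_⟩
    congr 1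
    omega
  | succ P ih =>
    intro j i ⟨h1, h2⟩
    have hp := bit0_par (i := i) (j := j) (by simpa using h2 0)
    obtain ⟨a1, a2⟩ := ih (j / 2) (i / 2) ⟨by rwa [Nat.testBit_add_one] at h1, fun x => by
      rw [← Nat.testBit_add_one, ← Nat.testBit_add_one, h2]
      simp⟩
    exact ⟨by omega, pal_lift h hp a2⟩

lemma pal_of_BB (h : IsPD U) : ∀ Q P j i : ℕ, BB j i P Q → i < j ∧ Pal U i j := by
  intro Q
  induction Q with
  | zero =>
    intro P j i ⟨h1, h2, h3, h4, h5⟩
    obtain ⟨k, rfl⟩ : ∃ k, P = k + 1 := ⟨P - 1, by omega⟩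
    obtain ⟨a1, a2, a3⟩ := low h k (j / 2) (by rwa [Nat.testBit_add_one] at h3)
      (fun x hx => by rw [← Nat.testBit_add_one]; exact h4 _ (by omega) (by omega))
    have he : i / 2 = j / 2 - 1 := by
      apply Nat.eq_of_testBit_eq
      intro x
      rw [a3, ← Nat.testBit_add_one, ← Nat.testBit_add_one, h5]
      simp
    have h0 : i % 2 = j % 2 := by
      have := h5 0
      rcases Nat.mod_two_eq_zero_or_one i with hi | hi <;>
        rcases Nat.mod_two_eq_zero_or_one j with hj | hj <;>
        simp [Nat.testBit_zero, hi, hj] at this ⊢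
    have hk : k % 2 = 1 := by omega
    have hU : U (2 * (j / 2)) = false := by
      rw [h.2 _ a1, a2]; simp [hk]
    have hall : ∀ x, i < x → x ≤ j → U x = false := by
      intro x b1 b2
      rcases Nat.mod_two_eq_zero_or_one x with hx | hx
      · rw [show x = 2 * (j / 2) by omega, hU]
      · exact U_odd h hx
    refine ⟨by omega, fun x b1 b2 => ?_⟩
    rw [hall x b1 b2, hall _ (by omega) (by omega)]
  | succ Q ih =>
    intro P j i ⟨h1, h2, h3, h4, h5⟩
    obtain ⟨k, rfl⟩ : ∃ k, P = k + 1 := ⟨P - 1, by omega⟩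
    have hp := bit0_par (i := i) (j := j) (by simpa using h5 0)
    obtain ⟨a1, a2⟩ := ih k (j / 2) (i / 2) ⟨by omega, by omega,
      by rwa [Nat.testBit_add_one] at h3,
      fun x b1 b2 => by rw [← Nat.testBit_add_one]; exact h4 _ (by omega) (by omega),
      fun x => by
        rw [← Nat.testBit_add_one, ← Nat.testBit_add_one, h5]
        simp⟩
    exact ⟨by omega, pal_lift h hp a2⟩

lemma even_pal (h : IsPD U) {i j : ℕ} (hij : i < j) (hpar : i % 2 = j % 2) (hp : Pal U i j) :
    j = i + 2 ∧ U (j / 2) = true := by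
  obtain ⟨c, hc⟩ : ∃ c, i + j = 2 * c := ⟨(i + j) / 2, by omega⟩
  have h1 := hp c (by omega) (by omega)
  rw [show i + j + 1 - c = c + 1 by omega] at h1
  -- `e` is the even one of `c`, `c + 1`
  have he : ∀ e, e % 2 = 0 → (e = c ∨ e = c + 1) → U (e / 2) = true ∧ e % 4 = 0 := by
    intro e e1 e2
    have hU : U e = false := by
      rcases e2 with rfl | rfl
      · rw [h1]; exact U_odd h (by omega)
      · rw [← h1]; exact U_odd h (by omega)
    rw [U_even h e1 (by omega)] at hU
    have hU' : U (e / 2) = true := by simpa using hU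
    refine ⟨hU', ?_⟩
    by_contra hh
    rw [U_odd h (x := e / 2) (by omega)] at hU'
    simp at hU'
  have hj : j = i + 2 := by
    by_contra hne
    have h2 := hp (c - 1) (by omega) (by omega)
    rw [show i + j + 1 - (c - 1) = c + 2 by omega] at h2
    rcases Nat.mod_two_eq_zero_or_one c with hc2 | hc2
    · obtain ⟨-, b⟩ := he c hc2 (Or.inl rfl)
      rw [U_odd h (x := c - 1) (by omega), U_even h (x := c + 2) (by omega) (by omega),
        U_odd h (x := (c + 2) / 2) (by omega)] at h2
      simp at h2
    · obtain ⟨-, b⟩ := he (c + 1) (by omega) (Or.inr rfl)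
      rw [U_odd h (x := c + 2) (by omega), U_even h (x := c - 1) (by omega) (by omega),
        U_odd h (x := (c - 1) / 2) (by omega)] at h2
      simp at h2
  refine ⟨hj, ?_⟩
  rcases Nat.mod_two_eq_zero_or_one c with hc2 | hc2
  · obtain ⟨b, -⟩ := he c hc2 (Or.inl rfl)
    rwa [show j / 2 = c / 2 by omega]
  · obtain ⟨b, -⟩ := he (c + 1) (by omega) (Or.inr rfl)
    rwa [show j / 2 = (c + 1) / 2 by omega]

lemma par_bit0 {i j : ℕ} (h : i % 2 + j % 2 = 1) : i.testBit 0 = (j.testBit 0 ^^ true) := by
  rcases Nat.mod_two_eq_zero_or_one i with hi | hi <;>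
    rcases Nat.mod_two_eq_zero_or_one j with hj | hj <;>
    simp [Nat.testBit_zero, hi, hj] at h ⊢

lemma mv_of_pal (h : IsPD U) : ∀ j i : ℕ, i < j → Pal U i j →
    (∃ P, BA j i P) ∨ ∃ P Q, BB j i P Q := by
  intro j
  induction j using Nat.strong_induction_on with
  | _ j ih =>
    intro i hij hp
    by_cases hpar : i % 2 = j % 2
    · obtain ⟨h1, h2⟩ := even_pal h hij hpar hp
      obtain ⟨k, k1, k2⟩ := exists_low (y := j / 2) (by omega)
      obtain ⟨a1, a2, a3⟩ := low h k (j / 2) k1 k2
      have hk : k % 2 = 1 := by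
        rw [h2] at a2
        simpa using a2
      refine Or.inr ⟨k + 1, 0, by omega, by omega, by rwa [Nat.testBit_add_one], ?_, ?_⟩
      · intro x b1 b2
        obtain ⟨z, rfl⟩ : ∃ z, x = z + 1 := ⟨x - 1, by omega⟩
        rw [Nat.testBit_add_one]
        exact k2 z (by omega)
      · intro x
        cases x with
        | zero => simp [Nat.testBit_zero, hpar]
        | succ x =>
          rw [Nat.testBit_add_one, Nat.testBit_add_one, show i / 2 = j / 2 - 1 by omega, a3]
          simp
    · have hpar' : i % 2 + j % 2 = 1 := by omega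
      by_cases he : i / 2 = j / 2
      · refine Or.inl ⟨0, ?_, ?_⟩
        · have : j % 2 = 1 := by omega
          simp [Nat.testBit_zero, this]
        · intro x
          cases x with
          | zero => simpa using par_bit0 hpar'
          | succ x =>
            rw [Nat.testBit_add_one, Nat.testBit_add_one, he]
            simp
      · rcases ih (j / 2) (by omega) (i / 2) (by omega) (pal_half h hpar' hp) with
          ⟨P, a1, a2⟩ | ⟨P, Q, a1, a2, a3, a4, a5⟩
        · refine Or.inl ⟨P + 1, by rwa [Nat.testBit_add_one], ?_⟩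
          intro x
          cases x with
          | zero => simpa using par_bit0 hpar'
          | succ x =>
            rw [Nat.testBit_add_one, Nat.testBit_add_one, a2]
            simp
        · refine Or.inr ⟨P + 1, Q + 1, by omega, by omega, by rwa [Nat.testBit_add_one], ?_, ?_⟩
          · intro x b1 b2
            obtain ⟨z, rfl⟩ : ∃ z, x = z + 1 := ⟨x - 1, by omega⟩
            rw [Nat.testBit_add_one]
            exact a4 z (by omega) (by omega)
          · intro x
            cases x with
            | zero => simpa using par_bit0 hpar'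
            | succ x =>
              rw [Nat.testBit_add_one, Nat.testBit_add_one, a5]
              simp

/-- The Gray code of `n` has a one at position `x`. -/
def G (n x : ℕ) : Prop := n.testBit x ≠ n.testBit (x + 1)

/-- A move, read on Gray codes. -/
def Mv (j i : ℕ) : Prop :=
  (∃ P, (G i P ↔ ¬ G j P) ∧ ∀ x, x ≠ P → (G i x ↔ G j x)) ∨
  ∃ P Q, Q + 2 ≤ P ∧ (P - Q) % 2 = 0 ∧ G j (P - 1) ∧ (∀ x, Q < x → x < P - 1 → ¬ G j x) ∧
    (∀ x, (x = P ∨ x = Q ∨ x + 1 = Q) → (G i x ↔ ¬ G j x)) ∧
    ∀ x, ¬ (x = P ∨ x = Q ∨ x + 1 = Q) → (G i x ↔ G j x)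

lemma mv_of_pal' (h : IsPD U) {j i : ℕ} (hij : i < j) (hp : Pal U i j) : Mv j i := by
  rcases mv_of_pal h j i hij hp with ⟨P, a1, a2⟩ | ⟨P, Q, a1, a2, a3, a4, a5⟩
  · refine Or.inl ⟨P, ?_, ?_⟩
    · unfold G
      rw [a2, a2]
      cases j.testBit P <;> cases j.testBit (P + 1) <;> simp
    · intro x hx
      unfold G
      rw [a2, a2]
      have : decide (x + 1 ≤ P) = decide (x ≤ P) := by
        apply decide_eq_decide.2; omega
      rw [this]
      cases j.testBit x <;> cases j.testBit (x + 1) <;> cases decide (x ≤ P) <;> simp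
  · refine Or.inr ⟨P, Q, a1, a2, ?_, ?_, ?_, ?_⟩
    · unfold G
      rw [show P - 1 + 1 = P by omega, a3, a4 _ (by omega) (by omega)]
      simp
    · intro x b1 b2
      unfold G
      rw [a4 _ b1 (by omega), a4 _ (by omega) (by omega)]
      simp
    · intro x hx
      unfold G
      rw [a5, a5]
      have : decide (x + 1 ≤ P ∧ x + 1 ≠ Q) = !(decide (x ≤ P ∧ x ≠ Q)) := by
        rw [← decide_not]
        apply decide_eq_decide.2; omega
      rw [this]
      cases j.testBit x <;> cases j.testBit (x + 1) <;> cases decide (x ≤ P ∧ x ≠ Q) <;> simp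
    · intro x hx
      unfold G
      rw [a5, a5]
      have : decide (x + 1 ≤ P ∧ x + 1 ≠ Q) = decide (x ≤ P ∧ x ≠ Q) := by
        apply decide_eq_decide.2; omega
      rw [this]
      cases j.testBit x <;> cases j.testBit (x + 1) <;> cases decide (x ≤ P ∧ x ≠ Q) <;> simp

end Pool.Agent.H743Z.Ppl
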