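import Pool.Agent.H743Z.PplA

set_option autoImplicit false

/-!
# Lower bounds for the number of moves
-/

namespace Pool.Agent.H743Z.Ppl

open Finset

/-- Every positive number has a move which lowers `p`. -/
def Step (p : ℕ → ℕ) : Prop := ∀ n, 0 < n → ∃ i, Mv n i ∧ p i + 1 ≤ p n

lemma G_zero (x : ℕ) : ¬ G 0 x := by simp [G]

variable {p : ℕ → ℕ}

lemma sep (hp : Step p) : ∀ (t n : ℕ) (X : Finset ℕ), p n ≤ t → (∀ x ∈ X, G n x) →
    (∀ x ∈ X, ∀ y ∈ X, x < y → x + t + 1 ≤ y) → X.card ≤ t := by
  intro t
  induction t with
  | zero =>
    intro n X h1 h2 _
    rcases X.eq_empty_or_nonempty with rfl | ⟨x, hx⟩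
    · simp
    · have hn : 0 < n := by
        rcases Nat.eq_zero_or_pos n with rfl | h
        · exact absurd (h2 x hx) (G_zero x)
        · exact h
      obtain ⟨i, -, hi⟩ := hp n hn
      omega
  | succ t ih =>
    intro n X h1 h2 h3
    rcases X.eq_empty_or_nonempty with rfl | ⟨x0, hx0⟩
    · simp
    have hn : 0 < n := by
      rcases Nat.eq_zero_or_pos n with rfl | h
      · exact absurd (h2 x0 hx0) (G_zero x0)
      · exact h
    obtain ⟨i, hm, hi⟩ := hp n hn
    rcases hm with ⟨P, -, a2⟩ | ⟨P, Q, a1, -, a3, -, -, a6⟩
    · have := ih i (X.erase P) (by omega)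
        (fun x hx => (a2 x (mem_erase.1 hx).1).2 (h2 x (mem_erase.1 hx).2))
        (fun x hx y hy hxy => by
          have := h3 x (mem_erase.1 hx).2 y (mem_erase.1 hy).2 hxy
          omega)
      have h4 := Finset.pred_card_le_card_erase (s := X) (a := P)
      omega
    · classical
      let Y := X.filter (fun x => ¬ (x = Q ∨ x + 1 = Q))
      let s : ℕ → ℕ := fun x => if x = P then P - 1 else x
      have hY : X.card ≤ Y.card + 1 := by
        have h5 := Finset.card_filter_add_card_filter_not (s := X)
          (fun x => x = Q ∨ x + 1 = Q)
        have h6 : (X.filter (fun x => x = Q ∨ x + 1 = Q)).card ≤ 1 := by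
          rw [Finset.card_le_one]
          intro x hx y hy
          rw [mem_filter] at hx hy
          rcases lt_trichotomy x y with h | h | h
          · have := h3 x hx.1 y hy.1 h
            omega
          · exact h
          · have := h3 y hy.1 x hx.1 h
            omega
        simp only [Y]
        omega
      have hsep : ∀ x ∈ X, ∀ y ∈ X, x < y → s x + t + 1 ≤ s y := by
        intro x hx y hy hxy
        have := h3 x hx y hy hxy
        simp only [s]
        split_ifs <;> omega
      have hinj : Set.InjOn s Y := by
        intro x hx y hy hxy
        have hx' : x ∈ X := (mem_filter.1 hx).1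
        have hy' : y ∈ X := (mem_filter.1 hy).1
        rcases lt_trichotomy x y with h | h | h
        · have := hsep x hx' y hy' h
          omega
        · exact h
        · have := hsep y hy' x hx' h
          omega
      have := ih i (Y.image s) (by omega) ?_ ?_
      · rw [Finset.card_image_of_injOn hinj] at this
        omega
      · intro z hz
        obtain ⟨x, hx, rfl⟩ := mem_image.1 hz
        rw [mem_filter] at hx
        simp only [s]
        split_ifs with h
        · exact (a6 _ (by omega)).2 a3
        · exact (a6 _ (by omega)).2 (h2 x hx.1)
      · intro z hz w hw hzw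
        obtain ⟨x, hx, rfl⟩ := mem_image.1 hz
        obtain ⟨y, hy, rfl⟩ := mem_image.1 hw
        have hx' : x ∈ X := (mem_filter.1 hx).1
        have hy' : y ∈ X := (mem_filter.1 hy).1
        rcases lt_trichotomy x y with h | h | h
        · exact hsep x hx' y hy' h
        · subst h; omega
        · have := hsep y hy' x hx' h
          omega

/-- The Gray code of `n` consists of full blocks `{a i, a i - 1}` and half blocks `{a i - 1}`. -/
def Shape (a : ℕ → ℕ) (N n : ℕ) (ν φ : ℕ → Bool) : Prop :=
  (∀ i, φ i = true → ν i = true) ∧
    ∀ x, G n x ↔ ∃ i < N, (ν i = true ∧ x + 1 = a i) ∨ (φ i = true ∧ x = a i)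

/-- The invariant: the orbit of `0` under the reflections attached to the full blocks. -/
def r (a : ℕ → ℕ) (φ : ℕ → Bool) : ℕ → ℤ
  | 0 => 0
  | i + 1 => if φ i = true then ((a i % 2 : ℕ) : ℤ) - r a φ i else r a φ i

lemma r_congr (a : ℕ → ℕ) {φ ψ : ℕ → Bool} {j : ℕ} (h0 : r a φ j = r a ψ j) :
    ∀ k, (∀ i, j ≤ i → i < j + k → φ i = ψ i) → r a φ (j + k) = r a ψ (j + k) := by
  intro k
  induction k with
  | zero => intro _; simpa using h0
  | succ k ih =>
    intro h
    rw [← add_assoc, r, r, ih (fun i b1 b2 => h i b1 (by omega)), h (j + k) (by omega) (by omega)]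

lemma r_const (a : ℕ → ℕ) {φ : ℕ → Bool} (j : ℕ) :
    ∀ k, (∀ i, j ≤ i → i < j + k → φ i = false) → r a φ (j + k) = r a φ j := by
  intro k
  induction k with
  | zero => intro _; rfl
  | succ k ih =>
    intro h
    rw [← add_assoc, r, h (j + k) (by omega) (by omega), ih (fun i b1 b2 => h i b1 (by omega))]
    simp

lemma r_move (a : ℕ → ℕ) {φ ψ : ℕ → Bool} {i j N : ℕ} (hji : j < i) (hiN : i < N)
    (hpar : a i % 2 = a j % 2) (hj : φ j = true) (hj' : ψ j = false) (hi : ψ i = !(φ i))
    (hb : ∀ k, j < k → k < i → φ k = false) (ho : ∀ k, k ≠ i → k ≠ j → ψ k = φ k) :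
    r a ψ N = r a φ N := by
  have h1 : r a ψ j = r a φ j := by
    have := r_congr a (φ := ψ) (ψ := φ) (j := 0) rfl j
      (fun k _ b => ho k (by omega) (by omega))
    simpa using this
  have h2 : r a φ i = r a φ (j + 1) := by
    have := r_const a (φ := φ) (j + 1) (i - (j + 1)) (fun k b1 b2 => hb k (by omega) (by omega))
    rwa [show j + 1 + (i - (j + 1)) = i by omega] at this
  have h3 : r a ψ i = r a ψ (j + 1) := by
    have := r_const a (φ := ψ) (j + 1) (i - (j + 1)) (fun k b1 b2 => by
      rw [ho k (by omega) (by omega)]; exact hb k (by omega) (by omega))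
    rwa [show j + 1 + (i - (j + 1)) = i by omega] at this
  have h4 : r a ψ (i + 1) = r a φ (i + 1) := by
    rw [r, r, h2, h3, r, r, hj, hj', hi, h1, hpar]
    cases φ i <;> simp
  have := r_congr a h4 (N - (i + 1)) (fun k b1 _ => ho k (by omega) (by omega))
  rwa [show i + 1 + (N - (i + 1)) = N by omega] at this

lemma tight (hp : Step p) {a : ℕ → ℕ} {N T : ℕ} (ha : ∀ i, 3 ≤ a i)
    (hg : ∀ i j, i < j → a i + T + 4 ≤ a j) :
    ∀ (t n : ℕ) (ν φ : ℕ → Bool), t ≤ T → Shape a N n ν φ → p n ≤ t →
      t ≤ ((range N).filter (fun i => ν i = true)).card → r a φ N = 0 := by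
  have hinj : ∀ i j, a i ≤ a j + 3 → a j ≤ a i + 3 → i = j := by
    intro i j h1 h2
    rcases lt_trichotomy i j with h | h | h
    · have := hg i j h; omega
    · exact h
    · have := hg j i h; omega
  have hzero : ∀ (ν φ : ℕ → Bool), Shape a N 0 ν φ → r a φ N = 0 := by
    intro ν φ hs
    have := r_const a (φ := φ) 0 N (fun i _ b => by
      by_contra hh
      exact G_zero (a i) ((hs.2 _).2 ⟨i, by omega, Or.inr ⟨by simpa using hh, rfl⟩⟩))
    simpa [r] using this
  intro t
  induction t with
  | zero =>
    intro n ν φ _ hs h1 _
    rcases Nat.eq_zero_or_pos n with rfl | hn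
    · exact hzero ν φ hs
    · obtain ⟨i, -, hi⟩ := hp n hn
      omega
  | succ t ih =>
    intro n ν φ ht hs h1 h2
    rcases Nat.eq_zero_or_pos n with rfl | hn
    · exact hzero ν φ hs
    obtain ⟨m, hm, hpm⟩ := hp n hn
    -- some block is destroyed
    have key : ∃ j < N, ν j = true ∧ ∀ y, a j ≤ y + 2 → y ≤ a j → ¬ G m y := by
      by_contra hcon
      push Not at hcon
      have hch : ∀ j, ∃ y, j < N → ν j = true → a j ≤ y + 2 ∧ y ≤ a j ∧ G m y := by
        intro j
        by_cases h : j < N ∧ ν j = true
        · obtain ⟨y, hy⟩ := hcon j h.1 h.2
          exact ⟨y, fun _ _ => hy⟩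
        · exact ⟨0, fun b1 b2 => absurd ⟨b1, b2⟩ h⟩
      choose y hy using hch
      have hy' : ∀ j ∈ (range N).filter (fun i => ν i = true),
          a j ≤ y j + 2 ∧ y j ≤ a j ∧ G m (y j) := by
        intro j hj
        rw [mem_filter, mem_range] at hj
        exact hy j hj.1 hj.2
      have hinj' : Set.InjOn y ((range N).filter (fun i => ν i = true) : Finset ℕ) := by
        intro i hi j hj hij
        have b1 := hy' i hi
        have b2 := hy' j hj
        exact hinj i j (by omega) (by omega)
      have := sep hp t m (((range N).filter (fun i => ν i = true)).image y) (by omega) ?_ ?_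
      · rw [Finset.card_image_of_injOn hinj'] at this
        omega
      · intro z hz
        obtain ⟨j, hj, rfl⟩ := mem_image.1 hz
        exact (hy' j hj).2.2
      · intro z hz w hw hzw
        obtain ⟨i, hi, rfl⟩ := mem_image.1 hz
        obtain ⟨j, hj, rfl⟩ := mem_image.1 hw
        have b1 := hy' i hi
        have b2 := hy' j hj
        rcases lt_trichotomy i j with h | h | h
        · have := hg i j h; omega
        · subst h; omega
        · have := hg j i h; omega
    obtain ⟨j, hjN, hνj, hkill⟩ := key
    have haj := ha j
    have hGj : G n (a j - 1) := (hs.2 _).2 ⟨j, hjN, Or.inl ⟨hνj, by omega⟩⟩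
    have hcard : t ≤ ((range N).filter (fun i => Function.update ν j false i = true)).card := by
      have h5 : ((range N).filter (fun i => ν i = true)).erase j ⊆
          (range N).filter (fun i => Function.update ν j false i = true) := by
        intro i hi
        rw [mem_erase, mem_filter] at hi
        rw [mem_filter, Function.update_of_ne hi.1]
        exact hi.2
      have h6 := Finset.card_le_card h5
      have h7 := Finset.pred_card_le_card_erase
        (s := (range N).filter (fun i => ν i = true)) (a := j)
      omega
    rcases hm with ⟨P, a1, a2⟩ | ⟨P, Q, a1, a2, a3, a4, a5, a6⟩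
    · have hP : a j - 1 = P := by
        by_contra h
        exact hkill _ (by omega) (by omega) ((a2 _ h).2 hGj)
      have hφ : φ j = false := by
        by_contra h
        have : G n (a j) := (hs.2 _).2 ⟨j, hjN, Or.inr ⟨by simpa using h, rfl⟩⟩
        exact hkill _ (by omega) (by omega) ((a2 _ (by omega)).2 this)
      refine ih m (Function.update ν j false) φ (by omega) ⟨?_, ?_⟩ (by omega) hcard
      · intro i hi
        have : i ≠ j := by
          rintro rfl
          rw [hφ] at hi
          simp at hi
        rw [Function.update_of_ne this]
        exact hs.1 i hi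
      · intro x
        by_cases hx : x = P
        · subst hx
          constructor
          · intro h
            exact absurd h (hkill _ (by omega) (by omega))
          · rintro ⟨i, hi, ⟨b1, b2⟩ | ⟨b1, b2⟩⟩
            · have : i = j := hinj i j (by omega) (by omega)
              subst this
              simp at b1
            · have : i = j := hinj i j (by omega) (by omega)
              subst this
              omega
        · rw [a2 x hx, hs.2]
          constructor
          · rintro ⟨i, hi, ⟨b1, b2⟩ | b⟩
            · have : i ≠ j := by
                rintro rfl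
                omega
              exact ⟨i, hi, Or.inl ⟨by rwa [Function.update_of_ne this], b2⟩⟩
            · exact ⟨i, hi, Or.inr b⟩
          · rintro ⟨i, hi, ⟨b1, b2⟩ | b⟩
            · have : i ≠ j := by
                rintro rfl
                simp at b1
              exact ⟨i, hi, Or.inl ⟨by rwa [Function.update_of_ne this] at b1, b2⟩⟩
            · exact ⟨i, hi, Or.inr b⟩
    · have hno : ¬ G n (a j - 2) := by
        intro h
        obtain ⟨i, -, ⟨-, b2⟩ | ⟨-, b2⟩⟩ := (hs.2 _).1 h
        · have : i = j := hinj i j (by omega) (by omega)
          subst this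
          omega
        · have : i = j := hinj i j (by omega) (by omega)
          subst this
          omega
      have hfl : a j - 1 = P ∨ a j - 1 = Q ∨ a j - 1 + 1 = Q := by
        by_contra h
        exact hkill _ (by omega) (by omega) ((a6 _ h).2 hGj)
      have hQ : Q = a j := by
        rcases hfl with h | h | h
        · exact absurd (by rwa [show a j - 2 = P - 1 by omega]) hno
        · exact absurd ((a5 (a j - 2) (by omega)).2 hno) (hkill _ (by omega) (by omega))
        · omega
      have hφ : φ j = true := by
        have h8 : G n (a j) := by
          by_contra h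
          exact hkill _ (by omega) (by omega) ((a5 (a j) (by omega)).2 h)
        obtain ⟨i, -, ⟨-, b2⟩ | ⟨b1, b2⟩⟩ := (hs.2 _).1 h8
        · have : i = j := hinj i j (by omega) (by omega)
          subst this
          omega
        · have : i = j := hinj i j (by omega) (by omega)
          subst this
          exact b1
      obtain ⟨i, hiN, hνi, hPi⟩ : ∃ i < N, ν i = true ∧ P = a i := by
        obtain ⟨i, hi, ⟨b1, b2⟩ | ⟨b1, b2⟩⟩ := (hs.2 _).1 a3
        · exact ⟨i, hi, b1, by omega⟩
        · exfalso
          have hij : j < i := by
            by_contra h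
            rcases Nat.lt_or_eq_of_le (not_lt.1 h) with h' | h'
            · have := hg i j h'; omega
            · subst h'; omega
          have := hg j i hij
          exact a4 (a i - 1) (by omega) (by omega)
            ((hs.2 _).2 ⟨i, hi, Or.inl ⟨hs.1 i b1, by omega⟩⟩)
      have hji : j < i := by
        by_contra h
        rcases Nat.lt_or_eq_of_le (not_lt.1 h) with h' | h'
        · have := hg i j h'; omega
        · subst h'; omega
      have hgap := hg j i hji
      have hbet : ∀ k, j < k → k < i → φ k = false := by
        intro k b1 b2
        by_contra h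
        have c1 := hg j k b1
        have c2 := hg k i b2
        exact a4 (a k) (by omega) (by omega)
          ((hs.2 _).2 ⟨k, by omega, Or.inr ⟨by simpa using h, rfl⟩⟩)
      let ψ : ℕ → Bool := fun k => if k = j then false else if k = i then !(φ i) else φ k
      have hψj : ψ j = false := by simp [ψ]
      have hψi : ψ i = !(φ i) := by
        have : i ≠ j := by omega
        simp [ψ, this]
      have hψo : ∀ k, k ≠ i → k ≠ j → ψ k = φ k := by
        intro k b1 b2
        simp [ψ, b1, b2]
      rw [← r_move a hji hiN (by omega) hφ hψj hψi hbet hψo]
      refine ih m (Function.update ν j false) ψ (by omega) ⟨?_, ?_⟩ (by omega) hcard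
      · intro k hk
        have hkj : k ≠ j := by
          rintro rfl
          rw [hψj] at hk
          simp at hk
        rw [Function.update_of_ne hkj]
        by_cases hki : k = i
        · rw [hki]; exact hνi
        · rw [hψo k hki hkj] at hk
          exact hs.1 k hk
      · intro x
        by_cases hxj : x = a j ∨ x + 1 = a j
        · constructor
          · intro h
            exact absurd h (hkill _ (by omega) (by omega))
          · rintro ⟨k, hk, ⟨b1, b2⟩ | ⟨b1, b2⟩⟩
            · have : k = j := hinj k j (by omega) (by omega)
              subst this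
              simp at b1
            · have : k = j := hinj k j (by omega) (by omega)
              subst this
              rw [hψj] at b1
              simp at b1
        · by_cases hxi : x = a i
          · rw [a5 x (by omega), hs.2]
            constructor
            · intro h
              refine ⟨i, hiN, Or.inr ⟨?_, hxi⟩⟩
              rw [hψi]
              by_contra hh
              exact h ⟨i, hiN, Or.inr ⟨by simpa using hh, hxi⟩⟩
            · rintro ⟨k, hk, ⟨b1, b2⟩ | ⟨b1, b2⟩⟩
              · have : k = i := hinj k i (by omega) (by omega)
                subst this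
                omega
              · have : k = i := hinj k i (by omega) (by omega)
                subst this
                rw [hψi] at b1
                rintro ⟨l, hl, ⟨c1, c2⟩ | ⟨c1, c2⟩⟩
                · have : l = k := hinj l k (by omega) (by omega)
                  subst this
                  omega
                · have : l = k := hinj l k (by omega) (by omega)
                  subst this
                  rw [c1] at b1
                  simp at b1
          · rw [a6 x (by omega), hs.2]
            constructor
            · rintro ⟨k, hk, ⟨b1, b2⟩ | ⟨b1, b2⟩⟩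
              · have : k ≠ j := by
                  rintro rfl
                  omega
                exact ⟨k, hk, Or.inl ⟨by rwa [Function.update_of_ne this], b2⟩⟩
              · have c1 : k ≠ j := by
                  rintro rfl
                  omega
                have c2 : k ≠ i := by
                  rintro rfl
                  omega
                exact ⟨k, hk, Or.inr ⟨by rwa [hψo k c2 c1], b2⟩⟩
            · rintro ⟨k, hk, ⟨b1, b2⟩ | ⟨b1, b2⟩⟩
              · have : k ≠ j := by
                  rintro rfl
                  omega
                exact ⟨k, hk, Or.inl ⟨by rwa [Function.update_of_ne this] at b1, b2⟩⟩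
              · have c1 : k ≠ j := by
                  rintro rfl
                  omega
                have c2 : k ≠ i := by
                  rintro rfl
                  omega
                exact ⟨k, hk, Or.inr ⟨by rwa [hψo k c2 c1] at b1, b2⟩⟩

end Pool.Agent.H743Z.Ppl
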