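import Pool.Agent.H743Z.PplB

set_option autoImplicit false

/-!
# Sparse numbers: upper bounds, and the values of `p` on the test family
-/

namespace Pool.Agent.H743Z.Ppl

open Finset

/-- Moves raise `p` by at most one. -/
def Up (p : ℕ → ℕ) : Prop :=
  (∀ j i P, BA j i P → p j ≤ p i + 1) ∧ ∀ j i P Q, BB j i P Q → p j ≤ p i + 1

/-- The number with binary ones at the positions `a i`, `i ∈ S`. -/
def num (a : ℕ → ℕ) (S : Finset ℕ) : ℕ := ∑ i ∈ S, 2 ^ a i

lemma testBit_num {a : ℕ → ℕ} (ha : StrictMono a) (S : Finset ℕ) :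
    ∀ x, (num a S).testBit x = true ↔ ∃ i ∈ S, a i = x := by
  induction S using Finset.induction_on_max with
  | empty => intro x; simp [num]
  | insert k S hk ih =>
    intro x
    have hkS : k ∉ S := fun h => lt_irrefl _ (hk k h)
    have hlt : num a S < 2 ^ a k := by
      apply Nat.lt_pow_two_of_testBit
      intro y hy
      by_contra h
      obtain ⟨i, hi, rfl⟩ := (ih y).1 (by simpa using h)
      have := ha (hk i hi)
      omega
    have he : num a (insert k S) = 2 ^ a k * 1 + num a S := by
      rw [num, Finset.sum_insert hkS, mul_one, num]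
    rw [he, Nat.testBit_two_pow_mul_add _ hlt]
    split_ifs with h
    · rw [ih]
      constructor
      · rintro ⟨i, hi, rfl⟩
        exact ⟨i, mem_insert_of_mem hi, rfl⟩
      · rintro ⟨i, hi, rfl⟩
        rcases mem_insert.1 hi with rfl | hi
        · omega
        · exact ⟨i, hi, rfl⟩
    · rw [show (1 : ℕ) = 2 ^ 0 from rfl, Nat.testBit_two_pow]
      simp only [decide_eq_true_eq]
      constructor
      · intro h'
        exact ⟨k, mem_insert_self _ _, by omega⟩
      · rintro ⟨i, hi, rfl⟩
        rcases mem_insert.1 hi with rfl | hi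
        · omega
        · have := ha (hk i hi)
          omega

variable {p : ℕ → ℕ} {a : ℕ → ℕ}

lemma smono (hg : ∀ i j, i < j → a i + 2 ≤ a j) : StrictMono a :=
  fun i j h => by have := hg i j h; omega

lemma up_del (hp : Up p) (ha : ∀ i, 1 ≤ a i) (hg : ∀ i j, i < j → a i + 2 ≤ a j)
    {S : Finset ℕ} {k : ℕ} (hk : k ∈ S) : p (num a S) ≤ p (num a (S.erase k)) + 2 := by
  have hb := testBit_num (smono hg) S
  have hb' := testBit_num (smono hg) (S.erase k)
  have hak := ha k
  have h1 : BA (num a S) (num a S ^^^ (2 ^ (a k + 1) - 1)) (a k) := by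
    refine ⟨(hb _).2 ⟨k, hk, rfl⟩, fun x => ?_⟩
    rw [Nat.testBit_xor, Nat.testBit_two_pow_sub_one]
    congr 1
    apply decide_eq_decide.2; omega
  have hn : (num a S).testBit (a k - 1) = false := by
    by_contra h
    obtain ⟨i, -, hi⟩ := (hb _).1 (by simpa using h)
    rcases lt_trichotomy i k with h' | h' | h'
    · have := hg i k h'; omega
    · subst h'; omega
    · have := hg k i h'; omega
  have h2 : BA (num a S ^^^ (2 ^ (a k + 1) - 1)) (num a (S.erase k)) (a k - 1) := by
    refine ⟨?_, fun x => ?_⟩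
    · rw [h1.2, hn]; simp
    · rw [h1.2]
      by_cases hx : x = a k
      · subst hx
        have e1 : (num a (S.erase k)).testBit (a k) = false := by
          by_contra h
          obtain ⟨i, hi, hi'⟩ := (hb' _).1 (by simpa using h)
          exact (mem_erase.1 hi).1 ((smono hg).injective hi')
        have e2 : ¬ (a k ≤ a k - 1) := by omega
        rw [e1, h1.1]; simp [e2]
      · have e1 : (num a (S.erase k)).testBit x = (num a S).testBit x := by
          rw [Bool.eq_iff_iff, hb, hb']
          constructor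
          · rintro ⟨i, hi, rfl⟩
            exact ⟨i, (mem_erase.1 hi).2, rfl⟩
          · rintro ⟨i, hi, rfl⟩
            exact ⟨i, mem_erase.2 ⟨fun h => hx (by rw [h]), hi⟩, rfl⟩
        have e2 : decide (x ≤ a k - 1) = decide (x ≤ a k) := by
          apply decide_eq_decide.2; omega
        rw [e1, e2]
        cases (num a S).testBit x <;> cases decide (x ≤ a k) <;> simp
  have := hp.1 _ _ _ h1
  have := hp.1 _ _ _ h2
  omega

lemma up_pair (hp : Up p) (hg : ∀ i j, i < j → a i + 2 ≤ a j)
    {S : Finset ℕ} {k l : ℕ} (hk : k ∈ S) (hl : l ∈ S) (hlk : l < k)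
    (hpar : a k % 2 = a l % 2) (hbet : ∀ i ∈ S, l < i → ¬ i < k) :
    p (num a S) ≤ p (num a ((S.erase k).erase l)) + 2 := by
  have hb := testBit_num (smono hg) S
  have hb' := testBit_num (smono hg) ((S.erase k).erase l)
  have hgap := hg l k hlk
  have hz : ∀ x, a l < x → x < a k → (num a S).testBit x = false := by
    intro x b1 b2
    by_contra h
    obtain ⟨i, hi, rfl⟩ := (hb _).1 (by simpa using h)
    exact hbet i hi ((smono hg).lt_iff_lt.1 b1) ((smono hg).lt_iff_lt.1 b2)
  have h1 : BB (num a S) ((num a S ^^^ (2 ^ (a k + 1) - 1)) ^^^ 2 ^ a l) (a k) (a l) := by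
    refine ⟨hgap, by omega, (hb _).2 ⟨k, hk, rfl⟩, hz, fun x => ?_⟩
    rw [Nat.testBit_xor, Nat.testBit_xor, Nat.testBit_two_pow_sub_one, Nat.testBit_two_pow,
      Bool.xor_assoc]
    congr 1
    by_cases h : x = a l
    · subst h
      have : a l < a k + 1 := by omega
      simp [this]
    · have h' : ¬ a l = x := fun e => h e.symm
      simp [h, h', Nat.lt_succ_iff]
  have h2 : BA ((num a S ^^^ (2 ^ (a k + 1) - 1)) ^^^ 2 ^ a l) (num a ((S.erase k).erase l))
      (a k - 1) := by
    refine ⟨?_, fun x => ?_⟩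
    · rw [h1.2.2.2.2, hz _ (by omega) (by omega)]
      have : a k - 1 ≠ a l := by omega
      simp [this]
    · rw [h1.2.2.2.2]
      by_cases hx : x = a k
      · subst hx
        have e1 : (num a ((S.erase k).erase l)).testBit (a k) = false := by
          by_contra h
          obtain ⟨i, hi, hi'⟩ := (hb' _).1 (by simpa using h)
          exact (mem_erase.1 (mem_erase.1 hi).2).1 ((smono hg).injective hi')
        have e2 : ¬ (a k ≤ a k - 1) := by omega
        have e3 : a k ≠ a l := by omega
        rw [e1, h1.2.2.1]; simp [e2, e3]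
      · by_cases hx' : x = a l
        · subst hx'
          have e1 : (num a ((S.erase k).erase l)).testBit (a l) = false := by
            by_contra h
            obtain ⟨i, hi, hi'⟩ := (hb' _).1 (by simpa using h)
            exact (mem_erase.1 hi).1 ((smono hg).injective hi')
          have e2 : a l ≤ a k - 1 := by omega
          rw [e1, (hb _).2 ⟨l, hl, rfl⟩]; simp [e2]
        · have e1 : (num a ((S.erase k).erase l)).testBit x = (num a S).testBit x := by
            rw [Bool.eq_iff_iff, hb, hb']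
            constructor
            · rintro ⟨i, hi, rfl⟩
              exact ⟨i, (mem_erase.1 (mem_erase.1 hi).2).2, rfl⟩
            · rintro ⟨i, hi, rfl⟩
              exact ⟨i, mem_erase.2 ⟨fun h => hx' (by rw [h]),
                mem_erase.2 ⟨fun h => hx (by rw [h]), hi⟩⟩, rfl⟩
          have e2 : decide (x ≤ a k - 1) = decide (x ≤ a k ∧ x ≠ a l) := by
            apply decide_eq_decide.2; omega
          rw [e1, e2]
          cases (num a S).testBit x <;> cases decide (x ≤ a k ∧ x ≠ a l) <;> simp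
  have := hp.2 _ _ _ _ h1
  have := hp.1 _ _ _ h2
  omega

/-- Cancelling `m` nested pairs around a hole. -/
lemma up_cancel (hp : Up p) (hg : ∀ i j, i < j → a i + 2 ≤ a j) :
    ∀ (m d c : ℕ), d + m ≤ c →
      (∀ s < m, a (c + s) % 2 = a (d + m - 1 - s) % 2) →
      p (num a (range (d + m) ∪ Ico c (c + m))) ≤ p (num a (range d)) + 2 * m := by
  intro m
  induction m with
  | zero => intro d c _ _; simp
  | succ m ih =>
    intro d c h1 h2
    have h3 := up_pair hp hg (S := range (d + (m + 1)) ∪ Ico c (c + (m + 1))) (k := c)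
      (l := d + m) (by simp) (by simp) (by omega)
      (by have := h2 0 (by omega); rwa [add_zero, show d + (m + 1) - 1 - 0 = d + m by omega] at this)
      (by
        intro i hi b1 b2
        simp only [mem_union, mem_range, mem_Ico] at hi
        omega)
    have h4 : ((range (d + (m + 1)) ∪ Ico c (c + (m + 1))).erase c).erase (d + m) =
        range (d + m) ∪ Ico (c + 1) (c + 1 + m) := by
      ext i
      simp only [mem_erase, mem_union, mem_range, mem_Ico]
      omega
    rw [h4] at h3
    have h5 := ih d (c + 1) (by omega) (fun s hs => by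
      have := h2 (s + 1) (by omega)
      rwa [show c + (s + 1) = c + 1 + s by omega,
        show d + (m + 1) - 1 - (s + 1) = d + m - 1 - s by omega] at this)
    omega

lemma shape_num (ha : ∀ i, 1 ≤ a i) (hg : ∀ i j, i < j → a i + 2 ≤ a j) (N : ℕ) :
    Shape a N (num a (range N)) (fun _ => true) (fun _ => true) := by
  refine ⟨fun _ _ => rfl, fun x => ?_⟩
  have hb := testBit_num (smono hg) (range N)
  unfold G
  constructor
  · intro h
    by_cases h1 : (num a (range N)).testBit x = true
    · obtain ⟨i, hi, rfl⟩ := (hb _).1 h1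
      exact ⟨i, mem_range.1 hi, Or.inr ⟨rfl, rfl⟩⟩
    · have h2 : (num a (range N)).testBit (x + 1) = true := by
        revert h h1
        cases (num a (range N)).testBit x <;> cases (num a (range N)).testBit (x + 1) <;> simp
      obtain ⟨i, hi, hi'⟩ := (hb _).1 h2
      exact ⟨i, mem_range.1 hi, Or.inl ⟨rfl, hi'.symm⟩⟩
  · have hnot : ¬ ((num a (range N)).testBit x = true ∧
        (num a (range N)).testBit (x + 1) = true) := by
      rintro ⟨b1, b2⟩
      obtain ⟨i, -, hi⟩ := (hb _).1 b1
      obtain ⟨j, -, hj⟩ := (hb _).1 b2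
      rcases lt_trichotomy i j with h' | h' | h'
      · have := hg i j h'; omega
      · subst h'; omega
      · have := hg j i h'; omega
    rintro ⟨i, hi, ⟨-, b⟩ | ⟨-, b⟩⟩
    · have b2 := (hb (x + 1)).2 ⟨i, mem_range.2 hi, b.symm⟩
      intro e
      exact hnot ⟨by rw [e, b2], b2⟩
    · have b1 := (hb x).2 ⟨i, mem_range.2 hi, b.symm⟩
      intro e
      exact hnot ⟨b1, by rw [← e, b1]⟩

lemma low_N (hp : Step p) {T N : ℕ} (ha : ∀ i, 3 ≤ a i)
    (hg : ∀ i j, i < j → a i + T + 4 ≤ a j) (hN : N ≤ T) : N ≤ p (num a (range N)) := by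
  by_contra h
  have hg' : ∀ i j, i < j → a i + 2 ≤ a j := fun i j hij => by have := hg i j hij; omega
  have hs := shape_num (fun i => by have := ha i; omega) hg' N
  have := sep hp (N - 1) (num a (range N)) ((range N).image a) (by omega) ?_ ?_
  · rw [Finset.card_image_of_injective _ (smono hg').injective, card_range] at this
    omega
  · intro x hx
    obtain ⟨i, hi, rfl⟩ := mem_image.1 hx
    exact (hs.2 _).2 ⟨i, mem_range.1 hi, Or.inr ⟨rfl, rfl⟩⟩
  · intro x hx y hy hxy
    obtain ⟨i, -, rfl⟩ := mem_image.1 hx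
    obtain ⟨j, -, rfl⟩ := mem_image.1 hy
    have := hg i j ((smono hg').lt_iff_lt.1 hxy)
    omega

lemma low_N1 (hp : Step p) {T N : ℕ} (ha : ∀ i, 3 ≤ a i)
    (hg : ∀ i j, i < j → a i + T + 4 ≤ a j) (hN : N ≤ T)
    (hr : r a (fun _ => true) N ≠ 0) : N + 1 ≤ p (num a (range N)) := by
  by_contra h
  have hg' : ∀ i j, i < j → a i + 2 ≤ a j := fun i j hij => by have := hg i j hij; omega
  have hs := shape_num (fun i => by have := ha i; omega) hg' N
  exact hr (tight hp ha hg N _ _ _ hN hs (by omega) (by simp))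

/-- The exponents of the test numbers. -/
def aa (l g g' i : ℕ) : ℕ := if i < l then 3 + i * g else 4 + l * g + (i - l) * g'

lemma aa_ge (l g g' i : ℕ) : 3 ≤ aa l g g' i := by
  unfold aa; split_ifs <;> omega

lemma aa_gap {l g g' D : ℕ} (h1 : D ≤ g) (h2 : D ≤ g') (i j : ℕ) (hij : i < j) :
    aa l g g' i + D ≤ aa l g g' j := by
  unfold aa
  split_ifs with b1 b2 b2
  · have : (i + 1) * g ≤ j * g := Nat.mul_le_mul_right g hij
    rw [add_mul] at this
    omega
  · have : (i + 1) * g ≤ l * g := Nat.mul_le_mul_right g b1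
    rw [add_mul] at this
    omega
  · omega
  · have : (i - l + 1) * g' ≤ (j - l) * g' := Nat.mul_le_mul_right g' (by omega)
    rw [add_mul] at this
    omega

lemma aa_par {l g g' : ℕ} (hl : l % 2 = 0) (h1 : g % 2 = 1) (h2 : g' % 2 = 1) (i : ℕ) :
    aa l g g' i % 2 = if i < l then (i + 1) % 2 else i % 2 := by
  unfold aa
  split_ifs with b
  · have : (i * g) % 2 = i % 2 := by rw [Nat.mul_mod, h1]; simp
    omega
  · have e1 : (l * g) % 2 = 0 := by rw [Nat.mul_mod, hl]; simp
    have e2 : ((i - l) * g') % 2 = (i - l) % 2 := by rw [Nat.mul_mod, h2]; simp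
    omega

lemma r_aa {l : ℕ} (hpar : ∀ i, a i % 2 = if i < l then (i + 1) % 2 else i % 2)
    (hl : l % 2 = 0) :
    (∀ i ≤ l, r a (fun _ => true) i =
      if i % 2 = 0 then -((i / 2 : ℕ) : ℤ) else (((i + 1) / 2 : ℕ) : ℤ)) ∧
    ∀ s ≤ l, r a (fun _ => true) (l + s) = r a (fun _ => true) (l - s) := by
  constructor
  · intro i
    induction i with
    | zero => intro _; simp [r]
    | succ i ih =>
      intro hi
      rw [r, ih (by omega), hpar i, if_pos rfl, if_pos (show i < l by omega)]
      split_ifs <;> omega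
  · intro s
    induction s with
    | zero => intro _; simp
    | succ s ih =>
      intro hs
      have e : l - s = (l - (s + 1)) + 1 := by omega
      rw [← add_assoc, r, ih (by omega), if_pos rfl, e, r, if_pos rfl, hpar (l + s),
        hpar (l - (s + 1)), if_neg (by omega), if_pos (by omega)]
      have : (l - (s + 1) + 1) % 2 = (l + s) % 2 := by omega
      rw [this]
      ring

/-- The low part of the test numbers. -/
def lo (l : ℕ) : ℕ := ∑ i ∈ range l, 2 ^ (3 + i * (2 * l + 5))

/-- The length of the low part. -/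
def ee (l : ℕ) : ℕ := 4 + l * (2 * l + 5)

/-- The high part of the test numbers. -/
def hi (k g' : ℕ) : ℕ := ∑ s ∈ range k, 2 ^ (s * g')

lemma num_aa (l k g' : ℕ) :
    num (aa l (2 * l + 5) g') (range (l + k)) = 2 ^ ee l * hi k g' + lo l := by
  rw [num, Finset.sum_range_add, add_comm, hi, lo, Finset.mul_sum]
  congr 1
  · refine Finset.sum_congr rfl fun s _ => ?_
    rw [← pow_add, aa, if_neg (by omega), ee, Nat.add_sub_cancel_left]
  · refine Finset.sum_congr rfl fun s hs => ?_
    rw [aa, if_pos (mem_range.1 hs)]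

lemma lo_lt (l : ℕ) : lo l < 2 ^ ee l := by
  have h := num_aa l 0 5
  simp only [hi, range_zero, sum_empty, mul_zero, zero_add, add_zero] at h
  have hg : ∀ i j, i < j → aa l (2 * l + 5) 5 i + 2 ≤ aa l (2 * l + 5) 5 j :=
    aa_gap (by omega) (by omega)
  rw [← h]
  apply Nat.lt_pow_two_of_testBit
  intro y hy
  by_contra hh
  obtain ⟨i, hi, rfl⟩ := (testBit_num (smono hg) _ y).1 (by simpa using hh)
  have := hg i l (mem_range.1 hi)
  have e : aa l (2 * l + 5) 5 l = ee l := by simp [aa, ee]
  omega

lemma cancel_aa (hu : Up p) {l k g' : ℕ} (hl : l % 2 = 0) (hg' : g' % 2 = 1) (h2 : 2 ≤ g')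
    (hk : k ≤ l) :
    p (num (aa l (2 * l + 5) g') (range (l + k))) ≤
      p (num (aa l (2 * l + 5) g') (range (l - k))) + 2 * k := by
  have hpar := aa_par (l := l) (g := 2 * l + 5) (g' := g') hl (by omega) hg'
  have h := up_cancel hu (a := aa l (2 * l + 5) g') (aa_gap (by omega) h2) k (l - k) l (by omega)
    (fun s hs => by
      rw [hpar, hpar, if_neg (by omega), if_pos (by omega)]
      omega)
  have e : range (l - k + k) ∪ Ico l (l + k) = range (l + k) := by
    ext i
    simp only [mem_union, mem_range, mem_Ico]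
    omega
  rwa [e] at h

lemma val_diag (hs : Step p) (hu : Up p) (h0 : p 0 = 0) {l g' : ℕ} (hl : l % 2 = 0)
    (hg' : g' % 2 = 1) (h2 : 2 * l + 5 ≤ g') : p (2 ^ ee l * hi l g' + lo l) = 2 * l := by
  rw [← num_aa]
  have h1 := cancel_aa hu hl hg' (by omega) (le_refl l)
  rw [Nat.sub_self, range_zero, show num (aa l (2 * l + 5) g') ∅ = 0 by simp [num], h0] at h1
  have h3 := low_N hs (a := aa l (2 * l + 5) g') (T := 2 * l) (N := l + l) (aa_ge _ _ _)
    (fun i j hij => by
      have := aa_gap (l := l) (g := 2 * l + 5) (g' := g') (D := 2 * l + 4) (by omega) (by omega)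
        i j hij
      omega) (by omega)
  omega

lemma val_off (hs : Step p) (hu : Up p) (h0 : p 0 = 0) {l k : ℕ} (hl : l % 2 = 0)
    (hk : k % 2 = 0) (hkl : k < l) :
    l + k + 1 ≤ p (2 ^ ee l * hi k (2 * l + 5) + lo l) ∧
      p (2 ^ ee l * hi k (2 * l + 5) + lo l) ≤ l + k + 2 := by
  rw [← num_aa]
  have hpar := aa_par (l := l) (g := 2 * l + 5) (g' := 2 * l + 5) hl (by omega) (by omega)
  constructor
  · refine low_N1 hs (T := 2 * l) (aa_ge _ _ _) (fun i j hij => by
      have := aa_gap (l := l) (g := 2 * l + 5) (g' := 2 * l + 5) (D := 2 * l + 4) (by omega)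
        (by omega) i j hij
      omega) (by omega) ?_
    obtain ⟨b1, b2⟩ := r_aa hpar hl
    rw [b2 k hkl.le, b1 (l - k) (by omega), if_pos (by omega)]
    omega
  · have h1 := cancel_aa hu (g' := 2 * l + 5) hl (by omega) (by omega) hkl.le
    obtain ⟨q, hq⟩ : ∃ q, l - k = 2 * q + 2 := ⟨(l - k) / 2 - 1, by omega⟩
    have hg : ∀ i j, i < j → aa l (2 * l + 5) (2 * l + 5) i + 2 ≤
        aa l (2 * l + 5) (2 * l + 5) j := aa_gap (by omega) (by omega)
    have ha : ∀ i, 1 ≤ aa l (2 * l + 5) (2 * l + 5) i := fun i => by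
      have := aa_ge l (2 * l + 5) (2 * l + 5) i; omega
    have h2 := up_del hu ha hg (S := range (2 * q + 2)) (k := 2 * q + 1) (by simp)
    have h3 := up_del hu ha hg (S := (range (2 * q + 2)).erase (2 * q + 1)) (k := q)
      (by simp only [mem_erase, mem_range]; omega)
    have h4 := up_cancel hu hg q 0 (q + 1) (by omega) (fun s hs => by
      rw [hpar, hpar, if_pos (by omega), if_pos (by omega)]
      omega)
    have e : ((range (2 * q + 2)).erase (2 * q + 1)).erase q =
        range (0 + q) ∪ Ico (q + 1) (q + 1 + q) := by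
      ext i
      simp only [mem_erase, mem_union, mem_range, mem_Ico]
      omega
    rw [e] at h3
    rw [range_zero, show num (aa l (2 * l + 5) (2 * l + 5)) ∅ = 0 by simp [num], h0] at h4
    rw [hq] at h1
    omega

theorem not_fg (hs : Step p) (hu : Up p) (h0 : p 0 = 0) :
    ¬ (Submodule.span ℤ {f : ℕ → ℤ | ∃ e r : ℕ, r < 2 ^ e ∧
            f = fun n : ℕ => ((p (2 ^ e * n + r) : ℕ) : ℤ)}).FG := by
  intro hfg
  let φ : (ℕ → ℤ) →ₗ[ℤ] (ℕ → ZMod 3) :=
    LinearMap.pi (fun n => (Int.castAddHom (ZMod 3)).toIntLinearMap.comp (LinearMap.proj n))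
  have hfg' := hfg.map φ
  set K := (Submodule.span ℤ {f : ℕ → ℤ | ∃ e r : ℕ, r < 2 ^ e ∧
            f = fun n : ℕ => ((p (2 ^ e * n + r) : ℕ) : ℤ)}).map φ with hK
  haveI : Module.Finite ℤ K := Module.Finite.iff_fg.2 hfg'
  haveI : Finite K := by
    apply Module.finite_of_fg_torsion
    intro x
    refine ⟨⟨3, by simp⟩, ?_⟩
    apply Subtype.ext
    funext n
    have : (3 : ZMod 3) = 0 := rfl
    simp [Submonoid.smul_def, this]
  let F : ℕ → K := fun t => ⟨φ (fun n : ℕ => ((p (2 ^ ee (6 * t) * n + lo (6 * t)) : ℕ) : ℤ)),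
    Submodule.mem_map_of_mem (Submodule.subset_span ⟨_, _, lo_lt _, rfl⟩)⟩
  have key : ∀ t t', t < t' → F t ≠ F t' := by
    intro t t' htt h
    have h1 := congrFun (congrArg Subtype.val h) (hi (6 * t) (2 * (6 * t') + 5))
    simp only [F, φ, LinearMap.pi_apply, LinearMap.comp_apply, LinearMap.proj_apply,
      AddMonoidHom.coe_toIntLinearMap, Int.coe_castAddHom, Int.cast_natCast] at h1
    rw [ZMod.natCast_eq_natCast_iff'] at h1
    have h2 := val_diag hs hu h0 (l := 6 * t) (g' := 2 * (6 * t') + 5) (by omega) (by omega)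
      (by omega)
    have h3 := val_off hs hu h0 (l := 6 * t') (k := 6 * t) (by omega) (by omega) (by omega)
    omega
  obtain ⟨t, t', hne, he⟩ := Finite.exists_ne_map_eq_of_infinite F
  rcases lt_or_gt_of_ne hne with h | h
  · exact key t t' h he
  · exact key t' t h he.symm

end Pool.Agent.H743Z.Ppl
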