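import Pool.Agent.H743Z.PplC

set_option autoImplicit false

/-!
# From palindromic factorizations to moves
-/

namespace Pool.Agent.H743Z.Ppl

/-- The letters with indices `m, …, n - 1`. -/
def seg (u : ℕ → Bool) (m n : ℕ) : List Bool := (List.range (n - m)).map (fun i => u (m + i))

/-- The prefix of length `n`. -/
def pre (u : ℕ → Bool) (n : ℕ) : List Bool := List.ofFn (fun i : Fin n => u i.val)

variable (u : ℕ → Bool)

lemma pre_eq (n : ℕ) : pre u n = (List.range n).map u := by
  apply List.ext_getElem
  · simp [pre]
  · intro i h1 h2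
    simp [pre]

lemma pre_append {m n : ℕ} (h : m ≤ n) : pre u n = pre u m ++ seg u m n := by
  rw [pre_eq, pre_eq, seg]
  obtain ⟨k, rfl⟩ := Nat.exists_eq_add_of_le h
  rw [Nat.add_sub_cancel_left, List.range_add, List.map_append, List.map_map]
  rfl

lemma pre_length (n : ℕ) : (pre u n).length = n := by simp [pre]

lemma seg_length (m n : ℕ) : (seg u m n).length = n - m := by simp [seg]

lemma seg_pal {m n : ℕ} (h : m ≤ n) :
    (seg u m n).reverse = seg u m n ↔ Pal (fun x => u (x - 1)) m n := by
  constructor
  · intro hr x h1 h2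
    have hx : x - m - 1 < n - m := by omega
    have e : (seg u m n).reverse[x - m - 1]'(by simpa [seg_length] using hx)
        = (seg u m n)[x - m - 1]'(by simpa [seg_length] using hx) := by
      simp only [hr]
    rw [List.getElem_reverse] at e
    simp only [seg, List.length_map, List.length_range, List.getElem_map, List.getElem_range] at e
    rw [show m + (n - m - 1 - (x - m - 1)) = m + n + 1 - x - 1 by omega,
      show m + (x - m - 1) = x - 1 by omega] at e
    exact e.symm
  · intro hp
    apply List.ext_getElem
    · simp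
    · intro i h1 h2
      rw [seg_length] at h2
      rw [List.getElem_reverse]
      simp only [seg, List.length_map, List.length_range, List.getElem_map, List.getElem_range]
      have := hp (m + i + 1) (by omega) (by omega)
      simp only [Nat.add_sub_cancel] at this
      rw [this]
      congr 1; omega

lemma last_pal : ∀ (L : List (List Bool)) (n : ℕ), 0 < n → (∀ w ∈ L, w.reverse = w) →
    L.flatten = pre u n → ∃ i < n, Pal (fun x => u (x - 1)) i n ∧
      ∃ L' : List (List Bool), L'.length + 1 ≤ L.length ∧ (∀ w ∈ L', w.reverse = w) ∧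
        L'.flatten = pre u i := by
  intro L
  induction L using List.reverseRecOn with
  | nil =>
    intro n hn _ hf
    have := congrArg List.length hf
    rw [pre_length] at this
    simp at this
    omega
  | append_singleton L w ih =>
    intro n hn hL hf
    rw [List.flatten_append] at hf
    simp only [List.flatten_cons, List.flatten_nil, List.append_nil] at hf
    have hL' : ∀ v ∈ L, v.reverse = v := fun v hv => hL v (by simp [hv])
    by_cases hw : w = []
    · subst hw
      obtain ⟨i, h1, h2, L', h3, h4, h5⟩ := ih n hn hL' (by simpa using hf)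
      exact ⟨i, h1, h2, L', by simp; omega, h4, h5⟩
    · have hlen := congrArg List.length hf
      rw [List.length_append, pre_length] at hlen
      have hw0 : 0 < w.length := List.length_pos_iff.mpr hw
      have hm : L.flatten.length < n := by omega
      rw [pre_append u hm.le] at hf
      obtain ⟨e1, e2⟩ := List.append_inj hf (by rw [pre_length])
      refine ⟨_, hm, (seg_pal u hm.le).1 ?_, L, by simp, hL', e1⟩
      rw [← e2]
      exact hL w (by simp)

theorem main (hu : ∀ n : ℕ, u (2 * n) = false ∧ u (2 * n + 1) = !(u n)) (p : ℕ → ℕ)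
    (hp : ∀ n : ℕ, IsLeast {k : ℕ | ∃ L : List (List Bool), L.length = k ∧
            (∀ w ∈ L, w.reverse = w) ∧
            L.flatten = List.ofFn (fun i : Fin n => u i.val)} (p n)) :
    ¬ (Submodule.span ℤ {f : ℕ → ℤ | ∃ e r : ℕ, r < 2 ^ e ∧
            f = fun n : ℕ => ((p (2 ^ e * n + r) : ℕ) : ℤ)}).FG := by
  have hU : IsPD (fun x => u (x - 1)) := by
    refine ⟨fun y => (hu y).1, fun y hy => ?_⟩
    have := (hu (y - 1)).2
    rwa [show 2 * (y - 1) + 1 = 2 * y - 1 by omega] at this
  have hup : ∀ i j, i < j → Pal (fun x => u (x - 1)) i j → p j ≤ p i + 1 := by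
    intro i j hij hpal
    obtain ⟨L, h1, h2, h3⟩ := (hp i).1
    refine (hp j).2 ⟨L ++ [seg u i j], by simp [h1], ?_, ?_⟩
    · intro w hw
      rw [List.mem_append, List.mem_singleton] at hw
      rcases hw with h | rfl
      · exact h2 w h
      · exact (seg_pal u hij.le).2 hpal
    · rw [List.flatten_append, h3]
      have := pre_append u hij.le
      simp only [pre] at this
      rw [this]
      simp
  refine not_fg ?_ ⟨?_, ?_⟩ ?_
  · intro n hn
    obtain ⟨L, h1, h2, h3⟩ := (hp n).1
    obtain ⟨i, b1, b2, L', b3, b4, b5⟩ := last_pal u L n hn h2 h3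
    refine ⟨i, mv_of_pal' hU b1 b2, ?_⟩
    have := (hp i).2 ⟨L', rfl, b4, b5⟩
    omega
  · intro j i P h
    obtain ⟨b1, b2⟩ := pal_of_BA hU P j i h
    exact hup i j b1 b2
  · intro j i P Q h
    obtain ⟨b1, b2⟩ := pal_of_BB hU Q P j i h
    exact hup i j b1 b2
  · have : p 0 ≤ 0 := (hp 0).2 ⟨[], rfl, by simp, by simp⟩
    omega

end Pool.Agent.H743Z.Ppl
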